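import Mathlib
import Pool.Agent.helper21.OD.SpecA

/-!
# Project OD, row LAT
-/

namespace Pool.Agent.OD

open Polynomial

/-- an endomorphism killed by a monic polynomial with unit constant term is onto -/
theorem LAT_surj {R M : Type} [CommRing R] [AddCommGroup M] [Module R M] (u : M →ₗ[R] M)
    (q : Polynomial R) (hq0 : IsUnit (q.coeff 0)) (x : M) (hx : aeval u q x = 0) :
    ∃ c, aeval u q c = 0 ∧ u c = x := by
  obtain ⟨w, hw⟩ := hq0
  refine ⟨-((↑w⁻¹ : R) • aeval u q.divX x), ?_, ?_⟩
  · rw [map_neg, map_smul, ← Module.End.mul_apply, ← map_mul, mul_comm, map_mul,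
      Module.End.mul_apply, hx, map_zero, smul_zero, neg_zero]
  · have h1 : aeval u (q.divX * X + C (q.coeff 0)) x = 0 := by
      rw [Polynomial.divX_mul_X_add]; exact hx
    rw [mul_comm, map_add, map_mul, aeval_X, aeval_C, LinearMap.add_apply,
      Module.End.mul_apply, Module.algebraMap_end_apply] at h1
    rw [map_neg, map_smul, eq_neg_of_add_eq_zero_left h1, smul_neg, neg_neg, ← hw, smul_smul,
      Units.inv_mul, one_smul]

theorem LAT_pow {R M : Type} [CommRing R] [AddCommGroup M] [Module R M] (u : M →ₗ[R] M)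
    (q : Polynomial R) (hq0 : IsUnit (q.coeff 0)) (m : ℕ) :
    ∀ x : M, aeval u q x = 0 → ∃ c, aeval u q c = 0 ∧ (u ^ m) c = x := by
  induction m with
  | zero => intro x hx; exact ⟨x, hx, by rw [pow_zero, Module.End.one_apply]⟩
  | succ m ih =>
    intro x hx
    obtain ⟨c, hc, hcx⟩ := ih x hx
    obtain ⟨d, hd, hdc⟩ := LAT_surj u q hq0 c hc
    exact ⟨d, hd, by rw [pow_succ, Module.End.mul_apply, hdc, hcx]⟩

theorem LAT : LAT_stmt := by
  intro R _ _ _ M M' _ _ _ _ _ _ u u' red ϖ hϖ hsm hcomm hred q hq hq0 m W hW hWm n y hy hyq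
  classical
  let M1 : Submodule R M := LinearMap.ker (aeval u q)
  have hfin : Module.Finite R M1 := Module.Finite.of_fg (IsNoetherian.noetherian M1)
  have hfree : Module.Free R M1 := Module.free_of_finite_type_torsion_free'
  let b := Module.finBasis R M1
  set ρ := Module.finrank R M1 with hρ
  have hn : n ≤ ρ := by
    have h1 : LinearIndependent R (fun i : Fin n => (⟨y i, hyq i⟩ : M1)) :=
      LinearIndependent.of_comp M1.subtype hy
    have h2 := h1.fintype_card_le_finrank
    rwa [Fintype.card_fin] at h2
  refine hn.trans ?_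
  have hredpow : ∀ (m : ℕ) (x : M), red ((u ^ m) x) = (u' ^ m) (red x) := by
    intro m
    induction m with
    | zero => intro x; rw [pow_zero, pow_zero, Module.End.one_apply, Module.End.one_apply]
    | succ m ih =>
      intro x
      rw [pow_succ, pow_succ, Module.End.mul_apply, Module.End.mul_apply, ih, hcomm]
  have hbW : ∀ i, red (b i : M) ∈ W := by
    intro i
    obtain ⟨c, -, hc⟩ := LAT_pow u q hq0 m (b i : M) (b i).2
    rw [← hc, hredpow]
    exact hWm c
  have hres : IsLocalRing.residue R ϖ = 0 := by
    rw [IsLocalRing.residue_eq_zero_iff, IsLocalRing.mem_maximalIdeal]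
    exact hϖ.not_isUnit
  have hind : LinearIndependent (IsLocalRing.ResidueField R)
      (fun i : Fin ρ => (⟨red (b i : M), hbW i⟩ : W)) := by
    rw [Fintype.linearIndependent_iff]
    intro g hg i
    have hsurj : ∀ i, ∃ a : R, IsLocalRing.residue R a = g i := fun i =>
      IsLocalRing.residue_surjective (g i)
    choose a ha using hsurj
    have h1 : red (∑ i, a i • (b i : M)) = 0 := by
      rw [map_sum]
      have h2 : ((∑ i, g i • (⟨red (b i : M), hbW i⟩ : W) : W) : M') = 0 := by rw [hg]; rfl
      rw [AddSubmonoidClass.coe_finsetSum] at h2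
      rw [← h2]
      refine Finset.sum_congr rfl fun i _ => ?_
      rw [hsm, ha]
      rfl
    obtain ⟨z, hz⟩ := hred _ h1
    have hz1 : aeval u q z = 0 := by
      have h3 : ϖ • aeval u q z = 0 := by
        rw [← map_smul, ← hz, map_sum]
        refine Finset.sum_eq_zero fun i _ => ?_
        rw [map_smul]
        have : aeval u q (b i : M) = 0 := (b i).2
        rw [this, smul_zero]
      exact (smul_eq_zero.1 h3).resolve_left hϖ.ne_zero
    have h4 : (∑ i, a i • b i) = ϖ • (⟨z, hz1⟩ : M1) := by
      apply Subtype.ext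
      rw [AddSubmonoidClass.coe_finsetSum]
      exact hz
    have h5 := congrArg (fun w : M1 => b.repr w i) h4
    simp only [map_sum, map_smul, Module.Basis.repr_self, Finsupp.coe_finsetSum,
      Finset.sum_apply, Finsupp.smul_apply, smul_eq_mul] at h5
    rw [Finset.sum_eq_single i (by
        intro j _ hj
        rw [Finsupp.single_eq_of_ne (Ne.symm hj), mul_zero]) (by
        intro h; exact absurd (Finset.mem_univ i) h), Finsupp.single_eq_same, mul_one] at h5
    rw [← ha i, h5, map_mul, hres, zero_mul]
  have h6 := hind.fintype_card_le_finrank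
  rwa [Fintype.card_fin] at h6

end Pool.Agent.OD
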